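import Pool.Agent.Helper44.HD.Stmt

/-!
# MP_e5f486_ag, Q1 for algebras concentrated in degree zero

`k` is a field of characteristic `0`, `G` a linearly reductive group (`D : RedGroup k G`), `R` a `k`-algebra with a rational
action of `G` by algebra automorphisms.  `R` is finitely generated, finite over its centre `HH⁰(R)` and smooth (finite
projective dimension over `R ⊗ Rᵒᵖ`); for an algebra `R` concentrated in degree `0` these are consequences of the
hypotheses of Q1.  `Perf^G(R)` is proper (`PropR`).

Then the Hochschild homology of the category `Mo D R` of the equivariant modules `R ⊗ V`, whose perfect hull is `Perf^G(R)`,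
vanishes in all degrees `≥ 1`, and every Hochschild cycle extends to a cycle of `(C[[u]], b + u B)` for every operator `B` which
makes the Hochschild complex a mixed complex: the Hodge-de Rham spectral sequence degenerates at the first page.
-/

set_option autoImplicit false

namespace Pool.Agent.Helper44.HDOld.DegreeZeroAlgebras

open Pool.Agent.Helper44.HD Pool.Agent.Helper44.HD.Stmt CategoryTheory

/-- Hodge-de Rham degeneration for `Perf^G(R)`, `R` an algebra in degree `0` -/
theorem result (k G R : Type) [Field k] [CharZero k] [Group G] [Ring R] [Algebra k R]
    [MulSemiringAction G R] [SMulCommClass G k R] (D : RedGroup k G) (hrat : RatR D R)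
    (hfg : (⊤ : Subalgebra k R).FG) (hcen : Module.Finite (Subalgebra.center k R) R)
    (hsm : ∃ n : ℕ, HasProjectiveDimensionLT (ModuleCat.of (Gam k R) (RBi R)) n)
    (hprop : PropR D R) :
    Exact (Mo D R) ∧ Degen (Mo D R) :=
  hd_stmt k G R D hrat hfg hcen hsm hprop

end Pool.Agent.Helper44.HDOld.DegreeZeroAlgebras
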